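import Pool.Agent.Run7.h630.QC.Iface
import Pool.Agent.Run7.h863.MQ.F1

/-!
# The ratio of the partition functions (piece Q14 of project QC of helper630)
-/

open MeasureTheory Matrix Filter Topology
open scoped Matrix.Norms.Frobenius ComplexConjugate

namespace Run7.h115.QC

open Run7.h4.YM Run7.h630.MQ Run7.h630.QC

noncomputable section

section general

variable {Ω : Type*} [TopologicalSpace Ω] [CompactSpace Ω] [MeasurableSpace Ω]
  [OpensMeasurableSpace Ω]

theorem int_deriv (P : Measure Ω) [IsProbabilityMeasure P] {S : Ω → ℝ} (hS : Continuous S)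
    (β : ℝ) : HasDerivAt (fun b : ℝ => ∫ ω, Real.exp (-(b * S ω)) ∂P)
      (∫ ω, -(S ω * Real.exp (-(β * S ω))) ∂P) β := by
  obtain ⟨C, hC⟩ := isCompact_univ.exists_bound_of_continuousOn hS.continuousOn
  have hC' : ∀ ω, |S ω| ≤ C := fun ω => hC ω (Set.mem_univ ω)
  refine (hasDerivAt_integral_of_dominated_loc_of_deriv_le (μ := P)
    (F := fun (t : ℝ) ω => Real.exp (-(t * S ω)))
    (F' := fun (t : ℝ) ω => -(S ω * Real.exp (-(t * S ω))))
    (bound := fun _ => C * Real.exp ((|β| + 1) * C)) (s := Metric.ball β 1)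
    (Metric.ball_mem_nhds β one_pos) ?_ ?_ ?_ ?_ ?_ ?_).2
  · refine Eventually.of_forall fun t => ?_
    exact (by fun_prop : Continuous fun ω => Real.exp (-(t * S ω))).aestronglyMeasurable
  · exact Run7.h863.MQ.intg P (by fun_prop)
  · exact (by fun_prop : Continuous fun ω =>
      -(S ω * Real.exp (-(β * S ω)))).aestronglyMeasurable
  · refine Eventually.of_forall fun ω t ht => ?_
    have h1 : |t| ≤ |β| + 1 := by
      have h2 : |t - β| < 1 := by simpa [Real.dist_eq] using ht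
      have h3 : |t| ≤ |t - β| + |β| := by
        have := abs_add_le (t - β) β
        simpa using this
      linarith
    rw [norm_neg, norm_mul, Real.norm_eq_abs, Real.norm_eq_abs, Real.abs_exp]
    refine mul_le_mul (hC' ω) (Real.exp_le_exp.2 ?_) (Real.exp_pos _).le
      ((abs_nonneg _).trans (hC' ω))
    have h4 : -(t * S ω) ≤ |t| * |S ω| := by
      rw [← abs_mul]; exact neg_le_abs _
    exact h4.trans (mul_le_mul h1 (hC' ω) (abs_nonneg _) (by positivity))
  · exact integrable_const _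
  · refine Eventually.of_forall fun ω t _ => ?_
    have h1 : HasDerivAt (fun t : ℝ => -(t * S ω)) (-(1 * S ω)) t :=
      ((hasDerivAt_id t).mul_const (S ω)).neg
    have h3 := h1.exp
    refine h3.congr_deriv ?_
    ring

end general

section

variable {N n L l : ℕ} [NeZero n] [NeZero L] [NeZero l]

theorem cont_Sq (k : ℕ) (q : ZMod n × ZMod L → ZMod N) :
    Continuous fun U : Link n L l → SU N => Sq k q U := by
  unfold Sq
  refine continuous_finsetSum _ fun x _ => continuous_finsetSum _ fun i _ =>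
    continuous_finsetSum _ fun j _ => ?_
  exact continuous_const.sub (Complex.continuous_re.comp
    (continuous_const.mul (Continuous.matrix_trace (Run7.h863.MQ.c_plaq x i j))))

variable [MeasurableSpace (SU N)] [BorelSpace (SU N)] (μ : Measure (SU N))
  [IsProbabilityMeasure μ] [NeZero N]

/-- the mean of the action, not normalised -/
def Za (μ : Measure (SU N)) (n L l k : ℕ) [NeZero n] [NeZero L] [NeZero l] (β : ℝ) : ℝ :=
  ∑ q : ZMod n × ZMod L → ZMod N,
    ∫ U, Sq k q U * Real.exp (-(β * Sq k q U)) ∂(Measure.pi fun _ : Link n L l => μ)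

theorem Zs_pos (k : ℕ) (β : ℝ) : 0 < Zs μ n L l k β := by
  unfold Zs
  refine Finset.sum_pos (fun q _ => ?_) ⟨fun _ => 0, Finset.mem_univ _⟩
  exact integral_exp_pos (Run7.h863.MQ.intg _
    (Real.continuous_exp.comp ((continuous_const.mul (cont_Sq k q)).neg)))

theorem Zs_deriv (k : ℕ) (β : ℝ) :
    HasDerivAt (fun b => Zs μ n L l k b) (-Za μ n L l k β) β := by
  have h : HasDerivAt (fun b => ∑ q : ZMod n × ZMod L → ZMod N,
      ∫ U, Real.exp (-(b * Sq k q U)) ∂(Measure.pi fun _ : Link n L l => μ))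
      (∑ q : ZMod n × ZMod L → ZMod N,
        ∫ U, -(Sq k q U * Real.exp (-(β * Sq k q U)))
          ∂(Measure.pi fun _ : Link n L l => μ)) β :=
    HasDerivAt.fun_sum fun q _ => int_deriv _ (cont_Sq k q) β
  refine h.congr_deriv ?_
  unfold Za
  rw [← Finset.sum_neg_distrib]
  exact Finset.sum_congr rfl fun q _ => integral_neg _

theorem one_le_vol : 1 ≤ vol n L l := by
  unfold vol
  have h1 : (1 : ℝ) ≤ n := by exact_mod_cast Nat.one_le_iff_ne_zero.2 (NeZero.ne n)
  have h2 : (1 : ℝ) ≤ L := by exact_mod_cast Nat.one_le_iff_ne_zero.2 (NeZero.ne L)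
  have h3 : (1 : ℝ) ≤ l := by exact_mod_cast Nat.one_le_iff_ne_zero.2 (NeZero.ne l)
  have h4 : (1 : ℝ) ≤ (l : ℝ) ^ 2 := one_le_pow₀ h3
  have h5 : (1 : ℝ) ≤ n * L := by nlinarith
  nlinarith

end

/-- `(1 + log β)³ ≤ 2197 β^(1/4)` -/
theorem log_bound {β : ℝ} (hβ : 1 ≤ β) : (1 + Real.log β) ^ 3 ≤ 2197 * β ^ (1 / 4 : ℝ) := by
  have h0 : 0 ≤ β := by linarith
  have h1 : Real.log β ≤ β ^ (1 / 12 : ℝ) / (1 / 12) := Real.log_le_rpow_div h0 (by norm_num)
  have h2 : 1 ≤ β ^ (1 / 12 : ℝ) := Real.one_le_rpow hβ (by norm_num)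
  have h3 : 1 + Real.log β ≤ 13 * β ^ (1 / 12 : ℝ) := by linarith
  have h4 : 0 ≤ 1 + Real.log β := by linarith [Real.log_nonneg hβ]
  calc (1 + Real.log β) ^ 3 ≤ (13 * β ^ (1 / 12 : ℝ)) ^ 3 := pow_le_pow_left₀ h4 h3 3
    _ = 2197 * β ^ (1 / 4 : ℝ) := by
      rw [mul_pow, ← Real.rpow_natCast (β ^ (1 / 12 : ℝ)) 3, ← Real.rpow_mul h0]
      norm_num

/-- the logarithmic derivative of the partition function -/
theorem log_deriv_bound {Z Y T W V C C2 β : ℝ} {p : ℕ} (hZ : 0 < Z) (hC : 0 < C) (hC2 : 0 < C2)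
    (hV : 1 ≤ V) (hβ : 1 ≤ β) (hT : T ≤ C2 * (V * (1 + Real.log β)) ^ 3 * Z)
    (h : |2 * β * Y - W * Z| ≤ C * V ^ p / Real.sqrt β * (Z + T)) :
    |-Y / Z + W / (2 * β)| ≤ C * (1 + C2) * 2197 * V ^ (p + 3) * β ^ (-(5 / 4) : ℝ) := by
  have h0 : 0 < β := by linarith
  have hs : 0 < Real.sqrt β := Real.sqrt_pos.2 h0
  have hV0 : 0 < V := by linarith
  have hlog : 0 ≤ Real.log β := Real.log_nonneg hβ
  have e1 : -Y / Z + W / (2 * β) = -((2 * β * Y - W * Z) / (2 * β * Z)) := by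
    field_simp
    ring
  rw [e1, abs_neg, abs_div, abs_of_pos (show 0 < 2 * β * Z by positivity), div_le_iff₀ (by positivity)]
  refine h.trans ?_
  have h1 : Z + T ≤ (1 + C2) * (2197 * V ^ 3 * β ^ (1 / 4 : ℝ)) * Z := by
    have h2 := log_bound hβ
    have h3 : (V * (1 + Real.log β)) ^ 3 ≤ 2197 * V ^ 3 * β ^ (1 / 4 : ℝ) := by
      rw [mul_pow]
      calc V ^ 3 * (1 + Real.log β) ^ 3 ≤ V ^ 3 * (2197 * β ^ (1 / 4 : ℝ)) :=
            mul_le_mul_of_nonneg_left h2 (by positivity)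
        _ = _ := by ring
    have h4 : 1 ≤ 2197 * V ^ 3 * β ^ (1 / 4 : ℝ) := by
      have h5 : 1 ≤ β ^ (1 / 4 : ℝ) := Real.one_le_rpow hβ (by norm_num)
      have h6 : 1 ≤ V ^ 3 := one_le_pow₀ hV
      nlinarith
    calc Z + T ≤ (1 + C2 * (V * (1 + Real.log β)) ^ 3) * Z := by linarith
      _ ≤ _ := by
        refine mul_le_mul_of_nonneg_right ?_ hZ.le
        have h7 := mul_le_mul_of_nonneg_left h3 hC2.le
        linarith
  have hb : β ^ (-(5 / 4) : ℝ) * β * Real.sqrt β = β ^ (1 / 4 : ℝ) := by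
    rw [Real.sqrt_eq_rpow]
    nth_rewrite 2 [← Real.rpow_one β]
    rw [← Real.rpow_add h0, ← Real.rpow_add h0]
    norm_num
  calc C * V ^ p / Real.sqrt β * (Z + T) ≤
        C * V ^ p / Real.sqrt β * ((1 + C2) * (2197 * V ^ 3 * β ^ (1 / 4 : ℝ)) * Z) :=
        mul_le_mul_of_nonneg_left h1 (by positivity)
    _ = C * (1 + C2) * 2197 * V ^ (p + 3) * β ^ (-(5 / 4) : ℝ) * (β * Z) := by
        rw [← hb, pow_add]
        field_simp
    _ ≤ C * (1 + C2) * 2197 * V ^ (p + 3) * β ^ (-(5 / 4) : ℝ) * (2 * β * Z) := by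
        refine mul_le_mul_of_nonneg_left ?_ (by positivity)
        nlinarith [mul_pos h0 hZ]

/-- a function with a small logarithmic derivative is close to its limit -/
theorem close_to_limit {h h' : ℝ → ℝ} {M c : ℝ} (hd : ∀ b, 1 ≤ b → HasDerivAt h (h' b) b)
    (hb : ∀ b, 1 ≤ b → |h' b| ≤ M * b ^ (-(5 / 4) : ℝ)) (hl : Tendsto h atTop (𝓝 c)) {β : ℝ}
    (hβ : 1 ≤ β) : |h β - c| ≤ 4 * M * β ^ (-(1 / 4) : ℝ) := by
  have hB : ∀ b : ℝ, 1 ≤ b → HasDerivAt (fun b : ℝ => 4 * M * b ^ (-(1 / 4) : ℝ))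
      (-(M * b ^ (-(5 / 4) : ℝ))) b := by
    intro b hb1
    have h1 : HasDerivAt (fun b : ℝ => b ^ (-(1 / 4) : ℝ))
        ((-(1 / 4) : ℝ) * b ^ ((-(1 / 4) : ℝ) - 1)) b :=
      Real.hasDerivAt_rpow_const (Or.inl (by linarith))
    refine (h1.const_mul (4 * M)).congr_deriv ?_
    norm_num
    ring
  have hBl : Tendsto (fun b : ℝ => 4 * M * b ^ (-(1 / 4) : ℝ)) atTop (𝓝 0) := by
    have := (tendsto_rpow_neg_atTop (show (0 : ℝ) < 1 / 4 by norm_num)).const_mul (4 * M)
    simpa using this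
  have hint : ∀ b ∈ interior (Set.Ici (1 : ℝ)), 1 ≤ b := by
    intro b hb
    rw [interior_Ici] at hb
    exact le_of_lt hb
  have anti : AntitoneOn (fun b => h b + 4 * M * b ^ (-(1 / 4) : ℝ)) (Set.Ici 1) := by
    refine antitoneOn_of_deriv_nonpos (convex_Ici 1) ?_ ?_ ?_
    · exact fun b hb => ((hd b hb).fun_add (hB b hb)).continuousAt.continuousWithinAt
    · exact fun b hb => ((hd b (hint b hb)).fun_add (hB b (hint b hb))).differentiableAt.differentiableWithinAt
    · intro b hb1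
      rw [((hd b (hint b hb1)).fun_add (hB b (hint b hb1))).deriv]
      have := (abs_le.1 (hb b (hint b hb1))).2
      linarith
  have mono : MonotoneOn (fun b => h b - 4 * M * b ^ (-(1 / 4) : ℝ)) (Set.Ici 1) := by
    refine monotoneOn_of_deriv_nonneg (convex_Ici 1) ?_ ?_ ?_
    · exact fun b hb => ((hd b hb).fun_sub (hB b hb)).continuousAt.continuousWithinAt
    · exact fun b hb => ((hd b (hint b hb)).fun_sub (hB b (hint b hb))).differentiableAt.differentiableWithinAt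
    · intro b hb1
      rw [((hd b (hint b hb1)).fun_sub (hB b (hint b hb1))).deriv]
      have := (abs_le.1 (hb b (hint b hb1))).1
      linarith
  have l1 : c ≤ h β + 4 * M * β ^ (-(1 / 4) : ℝ) := by
    have ht : Tendsto (fun b => h b + 4 * M * b ^ (-(1 / 4) : ℝ)) atTop (𝓝 (c + 0)) := hl.add hBl
    rw [add_zero] at ht
    refine le_of_tendsto ht ((eventually_ge_atTop β).mono fun b hb => ?_)
    exact anti hβ (hβ.trans hb) hb
  have l2 : h β - 4 * M * β ^ (-(1 / 4) : ℝ) ≤ c := by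
    have ht : Tendsto (fun b => h b - 4 * M * b ^ (-(1 / 4) : ℝ)) atTop (𝓝 (c - 0)) := hl.sub hBl
    rw [sub_zero] at ht
    refine ge_of_tendsto ht ((eventually_ge_atTop β).mono fun b hb => ?_)
    exact mono hβ (hβ.trans hb) hb
  rw [abs_le]
  constructor <;> linarith

theorem t_Q14 : S_Q11 → S_Q12 → S_Q14 := by
  intro h11 h12 N k _ hk _ _ μ _ _
  obtain ⟨C, p, hC, H11⟩ := h11 N
  obtain ⟨C2, hC2, H12⟩ := h12 N k hk μ
  -- the bound for one volume
  have key : ∀ (m m' l : ℕ) [NeZero m] [NeZero m'] [NeZero (2 * m)] [NeZero (2 * m')] [NeZero l]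
      (β : ℝ), 1 ≤ β →
      |-Za μ (2 * m) (2 * m') l k β / Zs μ (2 * m) (2 * m') l k β +
        3 * vol (2 * m) (2 * m') l * (N ^ 2 - 1) / (2 * β)| ≤
      C * (1 + C2) * 2197 * vol (2 * m) (2 * m') l ^ (p + 3) * β ^ (-(5 / 4) : ℝ) := by
    intro m m' l _ _ _ _ _ β hβ
    have h0 : 0 < β := by linarith
    have hT := H12 m m' l β hβ
    refine log_deriv_bound (T := ∑ q : ZMod (2 * m) × ZMod (2 * m') → ZMod N,
      ∫ U, (β * Sq k q U) ^ 3 * Real.exp (-(β * Sq k q U))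
        ∂(Measure.pi fun _ : Link (2 * m) (2 * m') l => μ)) (Zs_pos μ k β) hC hC2 one_le_vol hβ hT ?_
    have hq : ∀ q : ZMod (2 * m) × ZMod (2 * m') → ZMod N, _ := fun q =>
      H11 (2 * m) (2 * m') l k hk μ q β hβ
    have cS : ∀ q : ZMod (2 * m) × ZMod (2 * m') → ZMod N,
        Continuous fun U : Link (2 * m) (2 * m') l → SU N => Sq k q U := fun q => cont_Sq k q
    have e1 : 2 * β * Za μ (2 * m) (2 * m') l k β -
        3 * vol (2 * m) (2 * m') l * (N ^ 2 - 1) * Zs μ (2 * m) (2 * m') l k β =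
        ∑ q : ZMod (2 * m) × ZMod (2 * m') → ZMod N,
          ∫ U, (2 * β * Sq k q U - 3 * vol (2 * m) (2 * m') l * (N ^ 2 - 1)) *
            Real.exp (-(β * Sq k q U)) ∂(Measure.pi fun _ : Link (2 * m) (2 * m') l => μ) := by
      unfold Za Zs
      rw [Finset.mul_sum, Finset.mul_sum, ← Finset.sum_sub_distrib]
      refine Finset.sum_congr rfl fun q _ => ?_
      have c1 := cS q
      rw [← integral_const_mul, ← integral_const_mul, ← integral_sub
        (Run7.h863.MQ.intg _ (by fun_prop)) (Run7.h863.MQ.intg _ (by fun_prop))]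
      refine integral_congr_ae (Eventually.of_forall fun U => ?_)
      simp only
      ring
    have e2 : Zs μ (2 * m) (2 * m') l k β + ∑ q : ZMod (2 * m) × ZMod (2 * m') → ZMod N,
        ∫ U, (β * Sq k q U) ^ 3 * Real.exp (-(β * Sq k q U))
          ∂(Measure.pi fun _ : Link (2 * m) (2 * m') l => μ) =
        ∑ q : ZMod (2 * m) × ZMod (2 * m') → ZMod N,
          ∫ U, (1 + (β * Sq k q U) ^ 3) * Real.exp (-(β * Sq k q U))
            ∂(Measure.pi fun _ : Link (2 * m) (2 * m') l => μ) := by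
      unfold Zs
      rw [← Finset.sum_add_distrib]
      refine Finset.sum_congr rfl fun q _ => ?_
      have c1 := cS q
      rw [← integral_add (Run7.h863.MQ.intg _ (by fun_prop)) (Run7.h863.MQ.intg _ (by fun_prop))]
      refine integral_congr_ae (Eventually.of_forall fun U => ?_)
      simp only
      ring
    rw [e1, e2, Finset.mul_sum]
    exact (Finset.abs_sum_le_sum_abs _ _).trans (Finset.sum_le_sum fun q _ => hq q)
  refine ⟨4 * (C * (1 + C2) * 2197 * (2 ^ (p + 3) + 2)), p + 3, by positivity, ?_⟩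
  intro m m' l _ _ _ _ _ _ r hr hlim β hβ
  have : NeZero (2 * m) := inferInstance
  obtain ⟨V, hV⟩ : ∃ V, V = vol (2 * m) (2 * m') l := ⟨_, rfl⟩
  have hV1 : 1 ≤ V := by rw [hV]; exact one_le_vol
  have hV2 : vol (2 * (2 * m)) (2 * m') l = 2 * V := by
    rw [hV]; unfold vol; push_cast; ring
  set K := C * (1 + C2) * 2197 with hK
  have hK0 : 0 < K := by positivity
  have hd : ∀ b : ℝ, 1 ≤ b → HasDerivAt
      (fun b => Real.log (Zs μ (2 * (2 * m)) (2 * m') l k b / Zs μ (2 * m) (2 * m') l k b ^ 2))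
      (-Za μ (2 * (2 * m)) (2 * m') l k b / Zs μ (2 * (2 * m)) (2 * m') l k b -
        2 * (-Za μ (2 * m) (2 * m') l k b / Zs μ (2 * m) (2 * m') l k b)) b := by
    intro b _
    have h1 := (Zs_deriv μ k b : HasDerivAt (fun b => Zs μ (2 * (2 * m)) (2 * m') l k b) _ b).log
      (Zs_pos μ k b).ne'
    have h2 := (Zs_deriv μ k b : HasDerivAt (fun b => Zs μ (2 * m) (2 * m') l k b) _ b).log
      (Zs_pos μ k b).ne'
    have h3 := h1.sub (h2.const_mul 2)
    refine h3.congr_of_eventuallyEq (Eventually.of_forall fun b => ?_)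
    simp only [Pi.sub_apply]
    rw [Real.log_div (Zs_pos μ k b).ne' (pow_pos (Zs_pos μ k b) 2).ne', Real.log_pow]
    push_cast
    ring
  have hbd : ∀ b : ℝ, 1 ≤ b →
      |-Za μ (2 * (2 * m)) (2 * m') l k b / Zs μ (2 * (2 * m)) (2 * m') l k b -
        2 * (-Za μ (2 * m) (2 * m') l k b / Zs μ (2 * m) (2 * m') l k b)| ≤
      (K * (2 ^ (p + 3) + 2) * V ^ (p + 3)) * b ^ (-(5 / 4) : ℝ) := by
    intro b hb
    have k1 := key (2 * m) m' l b hb
    have k2 := key m m' l b hb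
    rw [hV2] at k1
    rw [← hV] at k2
    have hb0 : 0 < b := by linarith
    have e : -Za μ (2 * (2 * m)) (2 * m') l k b / Zs μ (2 * (2 * m)) (2 * m') l k b -
        2 * (-Za μ (2 * m) (2 * m') l k b / Zs μ (2 * m) (2 * m') l k b) =
        (-Za μ (2 * (2 * m)) (2 * m') l k b / Zs μ (2 * (2 * m)) (2 * m') l k b +
          3 * (2 * V) * (N ^ 2 - 1) / (2 * b)) -
        2 * (-Za μ (2 * m) (2 * m') l k b / Zs μ (2 * m) (2 * m') l k b +
          3 * V * (N ^ 2 - 1) / (2 * b)) := by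
      ring
    rw [e]
    refine (abs_sub _ _).trans ?_
    rw [abs_mul, abs_two]
    calc _ ≤ K * (2 * V) ^ (p + 3) * b ^ (-(5 / 4) : ℝ) +
          2 * (K * V ^ (p + 3) * b ^ (-(5 / 4) : ℝ)) :=
          add_le_add k1 (mul_le_mul_of_nonneg_left k2 zero_le_two)
      _ = _ := by rw [mul_pow]; ring
  have hlim' : Tendsto
      (fun b => Real.log (Zs μ (2 * (2 * m)) (2 * m') l k b / Zs μ (2 * m) (2 * m') l k b ^ 2))
      atTop (𝓝 (Real.log r)) := (Real.continuousAt_log hr.ne').tendsto.comp hlim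
  have := close_to_limit hd hbd hlim' hβ
  rw [← hV]
  refine this.trans (le_of_eq ?_)
  ring

end

end Run7.h115.QC
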